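import Pool.Agent.H12.KP.Targets4

/-!
# KEW, row HNFG: the sections of `O(N)` are finitely generated
-/

set_option autoImplicit false

open Pool.Agent.H12.KP Polynomial TensorProduct

universe u v

namespace Pool.Agent.H38.KP

theorem hnfg_core {A : Type u} {L : Type v} [CommRing A] [IsDomain A] [Field L] [Algebra A L]
    (T : L) {n : ℕ} (m : Fin n → L) :
    ∃ (δ : A[X]) (P : Fin n → Fin n → A[X]) (I : Set (Fin n)), δ ≠ 0 ∧
      (∀ i j, j ∉ I → P i j = 0) ∧ (∀ i, aeval T δ * m i = ∑ j, aeval T (P i j) * m j) ∧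
      (∀ q : Fin n → A[X], (∀ j, j ∉ I → q j = 0) → ∑ j, aeval T (q j) * m j = 0 →
        ∀ j, q j = 0) := by
  classical
  letI : Module A[X] L := Module.compHom L (aeval T : A[X] →ₐ[A] L).toRingHom
  have hsm : ∀ (p : A[X]) (z : L), p • z = aeval T p * z := fun p z => rfl
  have hlc : ∀ l : Fin n →₀ A[X], Finsupp.linearCombination A[X] m l =
      ∑ j, aeval T (l j) * m j := by
    intro l
    rw [Finsupp.linearCombination_apply, Finsupp.sum_fintype]
    · rfl
    · intro i; exact zero_smul _ _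
  obtain ⟨I, hI, hmax⟩ := exists_maximal_linearIndepOn A[X] m
  have h1 : ∀ i, ∃ a : A[X], a ≠ 0 ∧ a • m i ∈ Submodule.span A[X] (m '' I) := by
    intro i
    by_cases hi : i ∈ I
    · exact ⟨1, one_ne_zero, by rw [one_smul]; exact Submodule.subset_span ⟨i, hi, rfl⟩⟩
    · exact hmax i hi
  choose a ha0 ha using h1
  have h2 : ∀ i, (∏ i, a i) • m i ∈ Submodule.span A[X] (m '' I) := by
    intro i
    rw [← Finset.prod_erase_mul Finset.univ a (Finset.mem_univ i), mul_smul]
    exact Submodule.smul_mem _ _ (ha i)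
  have h3 : ∀ i, ∃ l : Fin n →₀ A[X], (∀ j, j ∉ I → l j = 0) ∧
      ∑ j, aeval T (l j) * m j = (∏ i, a i) • m i := by
    intro i
    obtain ⟨l, hl, hl2⟩ := (Finsupp.mem_span_image_iff_linearCombination A[X]).1 (h2 i)
    refine ⟨l, ?_, ?_⟩
    · intro j hj
      by_contra h
      exact hj ((Finsupp.mem_supported _ _).1 hl (Finsupp.mem_support_iff.2 h))
    · rw [← hlc, hl2]
  choose l hl hl2 using h3
  refine ⟨∏ i, a i, fun i j => l i j, I, Finset.prod_ne_zero_iff.2 fun i _ => ha0 i, hl, ?_, ?_⟩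
  · intro i
    rw [hl2 i, hsm]
  · intro q hq hs j
    have h4 := (linearIndepOn_iff.1 hI) (Finsupp.equivFunOnFinite.symm q) (by
      rw [Finsupp.mem_supported]
      intro j hj
      by_contra h
      exact (Finsupp.mem_support_iff.1 hj) (hq j h)) (by
      rw [hlc]; exact hs)
    exact DFunLike.congr_fun h4 j

theorem pf_HNFG : S_HNFG.{u, v} := by
  intro A L _ _ _ _ _ T hT M hM d N
  classical
  -- generators
  obtain ⟨n, m, hm⟩ := Submodule.fg_iff_exists_fin_generating_family.1 hM
  obtain ⟨δ, P, I, hδ, hPI, hP, hind⟩ := hnfg_core (A := A) T m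
  have hδT : aeval T δ ≠ 0 := fun h => hT ⟨δ, hδ, h⟩
  have hMm : ∀ x ∈ M, ∃ a : Fin n → A, x = ∑ l, a l • m l := by
    intro x hx
    rw [← hm] at hx
    obtain ⟨c, hc⟩ := (Submodule.mem_span_range_iff_exists_fun A).1 hx
    exact ⟨c, hc.symm⟩
  -- first span
  have hS1 : ∀ z ∈ Submodule.span A {z : L | ∃ i : ℕ, ∃ m ∈ M, z = T ^ i * m},
      ∃ f : Fin n → A[X], z = ∑ l, aeval T (f l) * m l := by
    intro z hz
    induction hz using Submodule.span_induction with
    | mem x hx =>
      obtain ⟨i, y, hy, rfl⟩ := hx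
      obtain ⟨a, rfl⟩ := hMm y hy
      refine ⟨fun l => C (a l) * X ^ i, ?_⟩
      rw [Finset.mul_sum]
      refine Finset.sum_congr rfl fun l _ => ?_
      rw [map_mul, aeval_C, map_pow, aeval_X, Algebra.smul_def]
      ring
    | zero => exact ⟨fun _ => 0, by simp⟩
    | add x y _ _ hx hy =>
      obtain ⟨f, rfl⟩ := hx
      obtain ⟨g, rfl⟩ := hy
      refine ⟨fun l => f l + g l, ?_⟩
      rw [← Finset.sum_add_distrib]
      refine Finset.sum_congr rfl fun l _ => ?_
      rw [map_add, add_mul]
    | smul a x _ hx =>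
      obtain ⟨f, rfl⟩ := hx
      refine ⟨fun l => C a * f l, ?_⟩
      rw [Finset.smul_sum]
      refine Finset.sum_congr rfl fun l _ => ?_
      rw [map_mul, aeval_C, Algebra.smul_def, mul_assoc]
  -- second span
  have hS2 : ∀ z ∈ Submodule.span A {z : L | ∃ i : ℕ, ∃ m ∈ M, T ^ (i + d) * z = T ^ N * m},
      ∃ (h : ℕ) (f : Fin n → A[X]), (∀ l, (f l).natDegree ≤ h + N) ∧
        T ^ h * z = ∑ l, aeval T (f l) * m l := by
    intro z hz
    induction hz using Submodule.span_induction with
    | mem x hx =>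
      obtain ⟨i, y, hy, hxy⟩ := hx
      obtain ⟨a, rfl⟩ := hMm y hy
      refine ⟨i + d, fun l => C (a l) * X ^ N, fun l => ?_, ?_⟩
      · exact (natDegree_C_mul_X_pow_le _ _).trans (Nat.le_add_left _ _)
      · rw [hxy, Finset.mul_sum]
        refine Finset.sum_congr rfl fun l _ => ?_
        rw [map_mul, aeval_C, map_pow, aeval_X, Algebra.smul_def]
        ring
    | zero => exact ⟨0, fun _ => 0, by simp, by simp⟩
    | add x y _ _ hx hy =>
      obtain ⟨h, f, hf, hfx⟩ := hx
      obtain ⟨k, g, hg, hgy⟩ := hy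
      refine ⟨h + k, fun l => X ^ k * f l + X ^ h * g l, fun l => ?_, ?_⟩
      · refine (natDegree_add_le _ _).trans (max_le ?_ ?_)
        · refine natDegree_mul_le.trans ?_
          have h1 := natDegree_X_pow_le (R := A) k
          have h2 := hf l
          omega
        · refine natDegree_mul_le.trans ?_
          have h1 := natDegree_X_pow_le (R := A) h
          have h2 := hg l
          omega
      · have e : T ^ (h + k) * (x + y) = T ^ k * (T ^ h * x) + T ^ h * (T ^ k * y) := by
          rw [pow_add]; ring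
        rw [e, hfx, hgy, Finset.mul_sum, Finset.mul_sum, ← Finset.sum_add_distrib]
        refine Finset.sum_congr rfl fun l _ => ?_
        rw [map_add, map_mul, map_mul, map_pow, map_pow, aeval_X]
        ring
    | smul a x _ hx =>
      obtain ⟨h, f, hf, hfx⟩ := hx
      refine ⟨h, fun l => C a * f l, fun l => (natDegree_C_mul_le _ _).trans (hf l), ?_⟩
      have e : T ^ h * (a • x) = a • (T ^ h * x) := by
        rw [mul_smul_comm]
      rw [e, hfx, Finset.smul_sum]
      refine Finset.sum_congr rfl fun l _ => ?_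
      rw [map_mul, aeval_C, Algebra.smul_def, mul_assoc]
  -- degree bound
  obtain ⟨g, hg⟩ : ∃ g : ℕ, ∀ i j, (P i j).natDegree ≤ g := by
    refine ⟨Finset.univ.sup fun p : Fin n × Fin n => (P p.1 p.2).natDegree, fun i j => ?_⟩
    exact Finset.le_sup (f := fun p : Fin n × Fin n => (P p.1 p.2).natDegree)
      (Finset.mem_univ (i, j))
  set F : Submodule A L := Submodule.span A
    (Set.range fun p : Fin (N + g + 1) × Fin n => T ^ (p.1 : ℕ) * m p.2) with hF
  have hFfg : F.FG := Submodule.fg_span (Set.finite_range _)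
  have hcomb : ∀ f : Fin n → A[X], aeval T δ * (∑ l, aeval T (f l) * m l) =
      ∑ j, aeval T (∑ l, f l * P l j) * m j := by
    intro f
    calc aeval T δ * (∑ l, aeval T (f l) * m l)
        = ∑ l, aeval T (f l) * (aeval T δ * m l) := by
          rw [Finset.mul_sum]; exact Finset.sum_congr rfl fun l _ => by ring
      _ = ∑ l, ∑ j, aeval T (f l * P l j) * m j := by
          refine Finset.sum_congr rfl fun l _ => ?_
          rw [hP l, Finset.mul_sum]
          refine Finset.sum_congr rfl fun j _ => ?_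
          rw [map_mul]; ring
      _ = ∑ j, aeval T (∑ l, f l * P l j) * m j := by
          rw [Finset.sum_comm]
          refine Finset.sum_congr rfl fun j _ => ?_
          rw [map_sum, Finset.sum_mul]
  have hkey : ∀ z ∈ ((Submodule.span A {z : L | ∃ i : ℕ, ∃ m ∈ M, z = T ^ i * m}) ⊓
      (Submodule.span A {z : L | ∃ i : ℕ, ∃ m ∈ M, T ^ (i + d) * z = T ^ N * m})),
      aeval T δ * z ∈ F := by
    intro z hz
    obtain ⟨f, hf⟩ := hS1 z hz.1
    obtain ⟨h, f', hf'd, hf'⟩ := hS2 z hz.2
    have h1 : aeval T δ * z = ∑ j, aeval T (∑ l, f l * P l j) * m j := by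
      rw [hf]; exact hcomb f
    have h2 : T ^ h * (aeval T δ * z) = ∑ j, aeval T (∑ l, f' l * P l j) * m j := by
      rw [← hcomb f', ← hf']; ring
    have h3 : ∀ j, X ^ h * (∑ l, f l * P l j) - ∑ l, f' l * P l j = 0 := by
      refine hind (fun j => X ^ h * (∑ l, f l * P l j) - ∑ l, f' l * P l j) ?_ ?_
      · intro j hj
        have e1 : ∀ l, P l j = 0 := fun l => hPI l j hj
        simp [e1]
      · have e2 : ∀ j, aeval T (X ^ h * (∑ l, f l * P l j) - ∑ l, f' l * P l j) * m j =
            T ^ h * (aeval T (∑ l, f l * P l j) * m j) - aeval T (∑ l, f' l * P l j) * m j := by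
          intro j
          rw [map_sub, map_mul, map_pow, aeval_X]; ring
        rw [Finset.sum_congr rfl fun j _ => e2 j, Finset.sum_sub_distrib, ← Finset.mul_sum,
          ← h1, h2, sub_self]
    have h4 : ∀ j, (∑ l, f l * P l j).natDegree ≤ N + g := by
      intro j
      by_cases h0 : (∑ l, f l * P l j) = 0
      · rw [h0]; simp
      have h5 : X ^ h * (∑ l, f l * P l j) = ∑ l, f' l * P l j := sub_eq_zero.1 (h3 j)
      have h6 : (∑ l, f' l * P l j).natDegree ≤ h + N + g := by
        refine natDegree_sum_le_of_forall_le _ _ fun l _ => ?_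
        exact natDegree_mul_le.trans (add_le_add (hf'd l) (hg l j))
      rw [← h5, natDegree_X_pow_mul h h0] at h6
      omega
    rw [h1]
    refine Submodule.sum_mem _ fun j _ => ?_
    rw [aeval_eq_sum_range' (Nat.lt_succ_of_le (h4 j)) T, Finset.sum_mul]
    refine Submodule.sum_mem _ fun i hi => ?_
    rw [smul_mul_assoc]
    refine Submodule.smul_mem _ _ (Submodule.subset_span ?_)
    exact ⟨(⟨i, by simpa using hi⟩, j), rfl⟩
  -- conclusion
  set S : Submodule A L := ((Submodule.span A {z : L | ∃ i : ℕ, ∃ m ∈ M, z = T ^ i * m}) ⊓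
      (Submodule.span A {z : L | ∃ i : ℕ, ∃ m ∈ M, T ^ (i + d) * z = T ^ N * m})) with hS
  haveI : IsNoetherian A F := isNoetherian_of_fg_of_noetherian F hFfg
  let μ : L →ₗ[A] L := LinearMap.mulLeft A (aeval T δ)
  have hμ : ∀ z ∈ S, μ z ∈ F := fun z hz => hkey z hz
  let ν : S →ₗ[A] F := μ.restrict hμ
  have hν : Function.Injective ν := by
    intro x y hxy
    have h1 : aeval T δ * (x : L) = aeval T δ * (y : L) := congrArg Subtype.val hxy
    exact Subtype.ext (mul_left_cancel₀ hδT h1)
  haveI : IsNoetherian A S := isNoetherian_of_injective ν hν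
  exact (Submodule.fg_top S).1 (IsNoetherian.noetherian ⊤)

end Pool.Agent.H38.KP
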